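import Pool.Agent.Work.MP_dc63d3_gt.Upper
import Pool.Agent.Work.MP_dc63d3_gt.Lower

open Pool.Agent.Work.MP_dc63d3_gt

/-- The least Lipschitz constant of a retraction `X(n) → X(n-1)` has order exactly `n`: it is at
most `170 n` in every real normed space, and at least `n / 100` in dimension at least two. -/
theorem Pool.Agent.Work.MP_dc63d3_gt.Parked.TrueOrder.result (X : Type) [NormedAddCommGroup X]
    [NormedSpace ℝ X] (n : ℕ) (hn : 2 ≤ n) :
    (∃ r : Finset X → Finset X, IsLipRetr n (170 * n) r) ∧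
      (2 ≤ Module.rank ℝ X →
        ∀ (L : ℝ) (r : Finset X → Finset X), IsLipRetr n L r → (n : ℝ) / 100 ≤ L) :=
  ⟨⟨_, upper hn⟩, fun hX _ _ h => lower hX hn h⟩
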